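import Mathlib
import Pool.Agent.H8.Shd

set_option autoImplicit false

namespace Pool.Agent.Results.MP_b7f2db_gt.Split

open Set Filter Topology Function Pool.Agent.H8.Shd

/-- selectively highly divergent -/
def SHD (Z : Type) [TopologicalSpace Z] : Prop :=
  ∀ U : ℕ → Set Z, (∀ n, IsOpen (U n) ∧ (U n).Nonempty) → ∃ x : ℕ → Z, (∀ n, x n ∈ U n) ∧
    ∀ φ : ℕ → ℕ, StrictMono φ → ∀ z, ¬ Tendsto (x ∘ φ) atTop (𝓝 z)

theorem result (h : ∀ 𝒜 : Set (Set ℕ), Cardinal.mk 𝒜 ≤ Cardinal.aleph 1 → ∃ S : Set ℕ,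
    S.Infinite ∧ ∀ A ∈ 𝒜, (S ∩ A).Finite ∨ (S \ A).Finite) :
    ∃ (Y : Type) (_ : TopologicalSpace Y), T35Space Y ∧ ¬ CompactSpace Y ∧ SHD Y ∧
      SeqCompactSpace (StoneCech Y) ∧ ¬ SHD (StoneCech Y) := by
  have hI : Cardinal.mk (Cardinal.aleph 1).out = Cardinal.aleph 1 := Cardinal.mk_out _
  generalize (Cardinal.aleph 1).out = I at hI
  haveI : Uncountable I := Cardinal.aleph0_lt_mk_iff.1 (hI ▸ Cardinal.aleph0_lt_aleph_one)
  have hJ : Cardinal.mk (I × ℕ) ≤ Cardinal.aleph 1 := by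
    simp [hI, Cardinal.aleph0_lt_aleph_one.le]
  obtain ⟨y, hy, -⟩ := ext (J := I × ℕ) countable_empty fun _ => true
  have hs : ∀ x : ℕ → StoneCech (X (I × ℕ)),
      ∃ φ : ℕ → ℕ, StrictMono φ ∧ ∃ z, Tendsto (x ∘ φ) atTop (𝓝 z) := fun x => by
    have he := (continuous_stoneCechExtend
      (continuous_subtype_val (p := (· ∈ X (I × ℕ))))).isClosedEmbedding inj
    obtain ⟨φ, hφ, z, hz⟩ := seq h hJ fun n => stoneCechExtend continuous_subtype_val (x n)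
    obtain ⟨p, rfl⟩ := he.isClosed_range.mem_of_tendsto hz
      (Eventually.of_forall fun n => ⟨_, rfl⟩)
    exact ⟨φ, hφ, p, he.isInducing.tendsto_nhds_iff.2 hz⟩
  refine ⟨X (I × ℕ), inferInstance, inferInstance, fun hc => ?_, shd, ⟨fun x _ => ?_⟩, fun hc => ?_⟩
  · obtain ⟨x, -, hx⟩ := shd (fun _ => (univ : Set (X (I × ℕ))))
      fun _ => ⟨isOpen_univ, ⟨y, hy⟩, trivial⟩
    obtain ⟨φ, hφ, z, hz⟩ := seq h hJ fun n => (x n).1
    have h1 := (isCompact_iff_compactSpace.2 hc).isClosed.mem_of_tendsto hz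
      (Eventually.of_forall fun n => (x (φ n)).2)
    exact hx φ hφ ⟨z, h1⟩ (tendsto_subtype_rng.2 hz)
  · obtain ⟨φ, hφ, z, hz⟩ := hs x
    exact ⟨z, trivial, φ, hφ, hz⟩
  · obtain ⟨x, -, hx⟩ := hc (fun _ => univ) fun _ => ⟨isOpen_univ, stoneCechUnit ⟨y, hy⟩, trivial⟩
    obtain ⟨φ, hφ, z, hz⟩ := hs x
    exact hx φ hφ z hz

end Pool.Agent.Results.MP_b7f2db_gt.Split
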